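import Pool.Agent.Helper884.IC.Compl

/-!
The field generated by the character values of a finite group: lower bounds for its degree.
-/

set_option linter.unusedSectionVars false

open scoped BigOperators Classical IntermediateField
open Pool.Agent.Helper884.IC

noncomputable section

namespace Pool.Agent.V1115.SR

/-- trace of the powers of an operator of finite order -/
theorem trace_pow_form {V : Type} [AddCommGroup V] [Module ℂ V] [FiniteDimensional ℂ V]
    {N : ℕ} (hN : 0 < N) {ζ : ℂ} (hζ : IsPrimitiveRoot ζ N) (f : Module.End ℂ V)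
    (hf : f ^ N = 1) :
    ∃ n : ℕ → ℕ, ∀ j : ℕ, LinearMap.trace ℂ V (f ^ j) =
      ∑ i ∈ Finset.range N, (n i : ℂ) * ζ ^ (i * j) := by
  have hζ0 : ζ ≠ 0 := hζ.ne_zero hN.ne'
  have hN0 : (N : ℂ) ≠ 0 := by exact_mod_cast hN.ne'
  let a : ℕ → ℕ → Module.End ℂ V := fun i k => (ζ⁻¹) ^ (i * k) • f ^ k
  let e : ℕ → Module.End ℂ V := fun i => (N : ℂ)⁻¹ • ∑ k ∈ Finset.range N, a i k
  have h1 : ∀ i, f * e i = ζ ^ i • e i := by
    intro i
    simp only [e]
    rw [mul_smul_comm, smul_comm]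
    congr 1
    rw [Finset.mul_sum, Finset.smul_sum]
    have h2 : ∀ k, f * a i k = ζ ^ i • a i (k + 1) := by
      intro k
      simp only [a]
      rw [mul_smul_comm, ← pow_succ', smul_smul]
      congr 1
      rw [mul_add, pow_add, mul_one, mul_comm (ζ⁻¹ ^ (i * k)), ← mul_assoc, ← mul_pow,
        mul_inv_cancel₀ hζ0, one_pow, one_mul]
    rw [Finset.sum_congr rfl fun k _ => h2 k, ← Finset.smul_sum, ← Finset.smul_sum]
    congr 1
    have h3 := Finset.sum_range_succ (a i) N
    have h4 := Finset.sum_range_succ' (a i) N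
    have h5 : a i N = a i 0 := by
      simp only [a]
      rw [hf, mul_comm i N, pow_mul, inv_pow, hζ.pow_eq_one, inv_one, one_pow, mul_zero, pow_zero,
        pow_zero]
    rw [h3, h5] at h4
    exact (add_right_cancel h4).symm
  have h6 : ∀ i j, f ^ j * e i = ζ ^ (i * j) • e i := by
    intro i j
    induction j with
    | zero => simp
    | succ j ih =>
      rw [pow_succ, mul_assoc, h1, mul_smul_comm, ih, smul_smul, mul_add, mul_one, pow_add,
        mul_comm]
  have h7 : ∀ i, IsIdempotentElem (e i) := by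
    intro i
    show e i * e i = e i
    conv_lhs => lhs; simp only [e]
    rw [smul_mul_assoc, Finset.sum_mul]
    have h8 : ∀ k ∈ Finset.range N, a i k * e i = e i := by
      intro k _
      simp only [a]
      rw [smul_mul_assoc, h6, smul_smul, ← mul_pow, inv_mul_cancel₀ hζ0, one_pow, one_smul]
    rw [Finset.sum_congr rfl h8, Finset.sum_const, Finset.card_range, ← Nat.cast_smul_eq_nsmul ℂ,
      smul_smul, inv_mul_cancel₀ hN0, one_smul]
  have h9 : ∑ i ∈ Finset.range N, e i = 1 := by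
    simp only [e, a]
    rw [← Finset.smul_sum, Finset.sum_comm]
    have h10 : ∀ k ∈ Finset.range N, ∑ i ∈ Finset.range N, (ζ⁻¹) ^ (i * k) • f ^ k =
        if k = 0 then (N : ℂ) • (1 : Module.End ℂ V) else 0 := by
      intro k hk
      rw [← Finset.sum_smul]
      split_ifs with h0
      · subst h0
        simp
      · have h11 : (ζ⁻¹) ^ k ≠ 1 := by
          intro h
          rw [inv_pow, inv_eq_one] at h
          exact hζ.pow_ne_one_of_pos_of_lt h0 (Finset.mem_range.mp hk) h
        have h12 : ∑ i ∈ Finset.range N, (ζ⁻¹) ^ (i * k) = 0 := by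
          have h13 : ∀ i ∈ Finset.range N, (ζ⁻¹) ^ (i * k) = ((ζ⁻¹) ^ k) ^ i := by
            intro i _
            rw [← pow_mul, mul_comm]
          rw [Finset.sum_congr rfl h13, geom_sum_eq h11, ← pow_mul, mul_comm k N, pow_mul,
            inv_pow, hζ.pow_eq_one]
          simp
        rw [h12, zero_smul]
    rw [Finset.sum_congr rfl h10, Finset.sum_ite_eq' (Finset.range N) 0,
      if_pos (Finset.mem_range.mpr hN), smul_smul, inv_mul_cancel₀ hN0, one_smul]
  refine ⟨fun i => Module.finrank ℂ (LinearMap.range (e i)), fun j => ?_⟩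
  have h14 : f ^ j = ∑ i ∈ Finset.range N, ζ ^ (i * j) • e i := by
    calc f ^ j = f ^ j * ∑ i ∈ Finset.range N, e i := by rw [h9, mul_one]
      _ = _ := by
        rw [Finset.mul_sum]
        exact Finset.sum_congr rfl fun i _ => h6 i j
  conv_lhs => rw [h14]
  rw [map_sum]
  refine Finset.sum_congr rfl fun i _ => ?_
  rw [map_smul, smul_eq_mul, mul_comm]
  congr 1
  exact (LinearMap.IsIdempotentElem.isProj_range (e i) (h7 i)).trace

variable {G : Type} [Group G] [Fintype G]

theorem char_form {χ : G → ℂ} (hχ : IsIrrChar χ) {N : ℕ} (hN : 0 < N) {ζ : ℂ}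
    (hζ : IsPrimitiveRoot ζ N) {x : G} (hx : x ^ N = 1) :
    ∃ n : ℕ → ℕ, ∀ j : ℕ, χ (x ^ j) = ∑ i ∈ Finset.range N, (n i : ℂ) * ζ ^ (i * j) := by
  obtain ⟨V, _, _, _, ρ, _, rfl⟩ := hχ
  obtain ⟨n, hn⟩ := trace_pow_form hN hζ (ρ x) (by rw [← map_pow, hx, map_one])
  refine ⟨n, fun j => ?_⟩
  rw [← hn j, ← map_pow]
  rfl

/-- the field generated by the values of the irreducible characters -/
def charField (G : Type) [Group G] : IntermediateField ℚ ℂ :=
  IntermediateField.adjoin ℚ {z : ℂ | ∃ χ : G → ℂ, IsIrrChar χ ∧ ∃ x : G, χ x = z}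

theorem charField_le {N : ℕ} (hN : 0 < N) {ζ : ℂ} (hζ : IsPrimitiveRoot ζ N)
    (hx : ∀ x : G, x ^ N = 1) : charField G ≤ ℚ⟮ζ⟯ := by
  unfold charField
  rw [IntermediateField.adjoin_le_iff]
  rintro z ⟨χ, hχ, x, rfl⟩
  obtain ⟨n, hn⟩ := char_form hχ hN hζ (hx x)
  have h := hn 1
  rw [pow_one] at h
  rw [h]
  refine sum_mem fun i _ => mul_mem (natCast_mem _ _) (pow_mem ?_ _)
  exact IntermediateField.mem_adjoin_simple_self ℚ ζ

theorem fd {N : ℕ} (hN : 0 < N) (hx : ∀ x : G, x ^ N = 1) :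
    FiniteDimensional ℚ (charField G) := by
  have hζ := Complex.isPrimitiveRoot_exp N hN.ne'
  have h1 : IsIntegral ℚ (Complex.exp (2 * Real.pi * Complex.I / N)) :=
    IsIntegral.of_pow hN (by rw [hζ.pow_eq_one]; exact isIntegral_one)
  have h2 : FiniteDimensional ℚ ℚ⟮Complex.exp (2 * Real.pi * Complex.I / N)⟯ :=
    IntermediateField.adjoin.finiteDimensional h1
  have h3 := IntermediateField.inclusion (charField_le hN hζ hx)
  exact FiniteDimensional.of_injective h3.toLinearMap h3.injective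

/-- Galois automorphisms acting on character values through powers of group elements -/
theorem emb {N : ℕ} (hN : 0 < N) (hx : ∀ x : G, x ^ N = 1) {j : ℕ} (hj : Nat.Coprime j N) :
    ∃ σ : charField G →ₐ[ℚ] ℂ, ∀ (χ : G → ℂ) (x : G) (h : χ x ∈ charField G), IsIrrChar χ →
      σ ⟨χ x, h⟩ = χ (x ^ j) := by
  obtain ⟨ζ, hζ⟩ : ∃ ζ : ℂ, IsPrimitiveRoot ζ N := ⟨_, Complex.isPrimitiveRoot_exp N hN.ne'⟩
  have h1 : IsIntegral ℚ ζ :=
    IsIntegral.of_pow hN (by rw [hζ.pow_eq_one]; exact isIntegral_one)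
  have hζj : IsPrimitiveRoot (ζ ^ j) N := hζ.pow_of_coprime j hj
  have h2 : ζ ^ j ∈ (minpoly ℚ ζ).aroots ℂ := by
    rw [Polynomial.mem_aroots]
    refine ⟨minpoly.ne_zero h1, ?_⟩
    rw [← Polynomial.cyclotomic_eq_minpoly_rat hζ hN, Polynomial.cyclotomic_eq_minpoly_rat hζj hN]
    exact minpoly.aeval ℚ _
  let τ : ℚ⟮ζ⟯ →ₐ[ℚ] ℂ := (IntermediateField.algHomAdjoinIntegralEquiv ℚ h1).symm ⟨_, h2⟩
  have hτ : τ (IntermediateField.AdjoinSimple.gen ℚ ζ) = ζ ^ j :=
    IntermediateField.algHomAdjoinIntegralEquiv_symm_apply_gen ℚ h1 _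
  refine ⟨τ.comp (IntermediateField.inclusion (charField_le hN hζ hx)), ?_⟩
  intro χ x h hχ
  obtain ⟨n, hn⟩ := char_form hχ hN hζ (hx x)
  have h3 : IntermediateField.inclusion (charField_le hN hζ hx) ⟨χ x, h⟩ =
      ∑ i ∈ Finset.range N, (n i : ℚ⟮ζ⟯) * (IntermediateField.AdjoinSimple.gen ℚ ζ) ^ i := by
    apply Subtype.ext
    have h4 := hn 1
    rw [pow_one] at h4
    rw [IntermediateField.coe_inclusion]
    show χ x = _
    rw [h4]
    push_cast
    refine Finset.sum_congr rfl fun i _ => ?_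
    rw [mul_one]
    rfl
  refine (congrArg τ h3).trans ?_
  rw [map_sum, hn j]
  refine Finset.sum_congr rfl fun i _ => ?_
  rw [map_mul, map_natCast, map_pow, hτ, ← pow_mul, mul_comm j i]

/-- the irreducible characters separate the conjugacy classes -/
theorem sep {a b : G} (h : ∀ χ : G → ℂ, IsIrrChar χ → χ a = χ b) : IsConj a b := by
  by_contra hab
  let f : G → ℂ := fun g => if IsConj a g then 1 else 0
  have hf : IsClass f := by
    intro g y
    have h1 : IsConj g (y * g * y⁻¹) := isConj_iff.mpr ⟨y, rfl⟩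
    have h2 : IsConj a (y * g * y⁻¹) ↔ IsConj a g :=
      ⟨fun h => h.trans h1.symm, fun h => h.trans h1⟩
    simp only [f, h2]
  have h1 := expand f hf
  have h2 : f a = f b := by
    rw [h1, Finset.sum_apply, Finset.sum_apply]
    refine Finset.sum_congr rfl fun χ hχ => ?_
    rw [Pi.smul_apply, Pi.smul_apply, h χ (mem_Irr.mp hχ)]
  simp only [f] at h2
  rw [if_pos (IsConj.refl a), if_neg hab] at h2
  exact one_ne_zero h2

theorem lower {ι : Type} [Finite ι] {N : ℕ} (hN : 0 < N) (hx : ∀ x : G, x ^ N = 1) (J : ι → ℕ)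
    (hJ : ∀ i, Nat.Coprime (J i) N)
    (hsep : ∀ i i', i ≠ i' → ∃ x : G, ¬ IsConj (x ^ J i) (x ^ J i')) :
    Nat.card ι ≤ Module.finrank ℚ (charField G) := by
  have hfd := fd hN hx
  choose σ hσ using fun i => emb hN hx (hJ i)
  have hinj : Function.Injective σ := by
    intro i i' hii
    by_contra hne
    obtain ⟨x, hxx⟩ := hsep i i' hne
    apply hxx
    apply sep
    intro χ hχ
    have h : χ x ∈ charField G := IntermediateField.subset_adjoin ℚ _ ⟨χ, hχ, x, rfl⟩
    rw [← hσ i χ x h hχ, ← hσ i' χ x h hχ, hii]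
  have h1 : Nat.card (charField G →ₐ[ℚ] ℂ) = Module.finrank ℚ (charField G) := by
    rw [Nat.card_eq_fintype_card]
    exact AlgHom.card ℚ (charField G) ℂ
  rw [← h1]
  have : Finite (charField G →ₐ[ℚ] ℂ) := inferInstance
  exact Nat.card_le_card_of_injective σ hinj

end Pool.Agent.V1115.SR
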