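import Pool.Agent.V1115.SR.Sign

/-!
The group of pairs `(s, d)` in `S_n × D_8` with `sgn s = det d` is uniformly semi-rational.
-/

set_option linter.unusedSectionVars false

open scoped BigOperators
open Equiv.Perm

namespace Pool.Agent.V1115.SR

/-- the determinant of an element of the dihedral group of order 8 -/
def det : DihedralGroup 4 →* ℤˣ where
  toFun d := match d with
    | .r _ => 1
    | .sr _ => -1
  map_one' := rfl
  map_mul' := by decide

lemma d8_pow4 : ∀ d : DihedralGroup 4, d ^ 4 = 1 := by decide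

lemma d8_conj : ∀ d : DihedralGroup 4, ∃ g : DihedralGroup 4, g * d * g⁻¹ = d ^ 3 := by decide

lemma d8_cent : ∀ d : DihedralGroup 4, (∀ c : DihedralGroup 4, c * d = d * c → det c = 1) →
    DihedralGroup.sr 0 * d * (DihedralGroup.sr 0)⁻¹ = d ^ 3 := by decide

lemma d8_cent_r : ∀ c : DihedralGroup 4, c * DihedralGroup.r 1 = DihedralGroup.r 1 * c →
    det c = 1 := by decide

/-- for odd `j`, `d ^ j` is `d` or `d ^ 3` -/
lemma d8_odd (d : DihedralGroup 4) {j : ℕ} (hj : Odd j) : d ^ j = d ∨ d ^ j = d ^ 3 := by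
  have h : ∀ k i : ℕ, d ^ (4 * k + i) = d ^ i := by
    intro k i
    rw [pow_add, pow_mul, d8_pow4, one_pow, one_mul]
  obtain ⟨m, hm⟩ := hj
  rcases Nat.even_or_odd m with ⟨l, hl⟩ | ⟨l, hl⟩
  · left
    rw [show j = 4 * l + 1 by omega, h, pow_one]
  · right
    rw [show j = 4 * l + 3 by omega, h]

variable {n : ℕ}

lemma cycleType_pow (s : Equiv.Perm (Fin n)) : ∀ j : ℕ, Nat.Coprime j (orderOf s) →
    (s ^ j).cycleType = s.cycleType := by
  induction s using Equiv.Perm.cycle_induction_on with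
  | base_one => intro j _; simp
  | base_cycles σ hσ =>
    intro j hj
    have h1 : (σ ^ j).IsCycle := hσ.pow_iff.mpr hj
    rw [h1.cycleType, hσ.cycleType, Equiv.Perm.support_pow_coprime hj]
  | induction_disjoint σ τ hd hc hσ hτ =>
    intro j hj
    rw [hd.orderOf] at hj
    have h1 : Nat.Coprime j (orderOf σ) := Nat.Coprime.coprime_dvd_right (Nat.dvd_lcm_left _ _) hj
    have h2 : Nat.Coprime j (orderOf τ) := Nat.Coprime.coprime_dvd_right (Nat.dvd_lcm_right _ _) hj
    rw [hd.commute.mul_pow, (hd.pow_disjoint_pow j j).cycleType_mul, hd.cycleType_mul, hσ j h1,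
      hτ j h2]

lemma sn_conj (s : Equiv.Perm (Fin n)) {j : ℕ} (hj : Nat.Coprime j (orderOf s)) :
    ∃ g, g * s * g⁻¹ = s ^ j := by
  have : IsConj s (s ^ j) := Equiv.Perm.isConj_iff_cycleType_eq.mpr (cycleType_pow s j hj).symm
  exact isConj_iff.mp this

lemma d8_rat (d : DihedralGroup 4) {j : ℕ} (hj : Nat.Coprime j (orderOf d)) :
    ∃ g, g * d * g⁻¹ = d ^ j := by
  rcases Nat.even_or_odd (orderOf d) with h | h
  · have h1 : Odd j := by
      rcases Nat.even_or_odd j with h2 | h2
      · exfalso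
        have h3 : 2 ∣ Nat.gcd j (orderOf d) := Nat.dvd_gcd h2.two_dvd h.two_dvd
        rw [hj] at h3
        exact absurd h3 (by decide)
      · exact h2
    rcases d8_odd d h1 with h2 | h2
    · exact ⟨1, by rw [h2]; simp⟩
    · rw [h2]
      exact d8_conj d
  · have h1 : orderOf d ∣ 4 := orderOf_dvd_of_pow_eq_one (d8_pow4 d)
    have h2 : orderOf d = 1 := by
      have h3 : orderOf d ≤ 4 := Nat.le_of_dvd (by norm_num) h1
      interval_cases orderOf d
      · exact absurd h (by decide)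
      · rfl
      · exact absurd h (by decide)
      · exact absurd h1 (by decide)
      · exact absurd h (by decide)
    rw [orderOf_eq_one_iff] at h2
    exact ⟨1, by rw [h2]; simp⟩

/-- sign times determinant -/
def eps (n : ℕ) : Equiv.Perm (Fin n) × DihedralGroup 4 →* ℤˣ :=
  (Equiv.Perm.sign.comp (MonoidHom.fst _ _)) * (det.comp (MonoidHom.snd _ _))

lemma eps_apply (x : Equiv.Perm (Fin n) × DihedralGroup 4) :
    eps n x = Equiv.Perm.sign x.1 * det x.2 := rfl

/-- the group -/
abbrev GG (n : ℕ) : Type := (eps n).ker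

section general

variable {R : Type} [Group R] (ε : R →* ℤˣ) {x y z : R}

lemma ker_conj (hx : x ∈ ε.ker) (hy : y ∈ ε.ker) {g : R} (hg : g * x * g⁻¹ = y)
    (h : ε g = 1) : IsConj (⟨x, hx⟩ : ε.ker) ⟨y, hy⟩ :=
  isConj_iff.mpr ⟨⟨g, h⟩, Subtype.ext hg⟩

lemma ker_conj_c (hx : x ∈ ε.ker) (hy : y ∈ ε.ker) {g c : R} (hg : g * x * g⁻¹ = y)
    (h : ε g = -1) (hc : c * x = x * c) (hc' : ε c = -1) :
    IsConj (⟨x, hx⟩ : ε.ker) ⟨y, hy⟩ := by
  refine ker_conj ε hx hy (g := g * c) ?_ ?_
  · rw [mul_inv_rev, mul_assoc g c x, hc, ← hg]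
    simp only [mul_assoc, mul_inv_cancel_left]
  · rw [map_mul, h, hc']
    decide

lemma ker_conj_u (hz : z ∈ ε.ker) (hy : y ∈ ε.ker) {g u : R} (hg : g * x * g⁻¹ = y)
    (h : ε g = -1) (hu : u * x * u⁻¹ = z) (hu' : ε u = -1) :
    IsConj (⟨z, hz⟩ : ε.ker) ⟨y, hy⟩ := by
  refine ker_conj ε hz hy (g := g * u⁻¹) ?_ ?_
  · rw [← hu, ← hg, mul_inv_rev, inv_inv]
    simp only [mul_assoc, inv_mul_cancel_left]
  · rw [map_mul, map_inv, h, hu']
    decide

end general

lemma odd_order {s : Equiv.Perm (Fin n)} (hs : Subgroup.centralizer {s} ≤ alternatingGroup (Fin n)) :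
    Odd (orderOf s) := by
  have h3 := Equiv.Perm.OnCycleFactors.odd_of_centralizer_le_alternatingGroup hs
  rw [← Equiv.Perm.lcm_cycleType]
  have h4 : s.cycleType.lcm ∣ s.cycleType.prod :=
    Multiset.lcm_dvd.mpr fun b hb => Multiset.dvd_prod hb
  refine Odd.of_dvd_nat ?_ h4
  exact Multiset.prod_induction Odd _ (fun a b ha hb => ha.mul hb) odd_one h3

theorem semi_key (n : ℕ) : ∃ m : ℕ, ∀ x : GG n, ∀ j : ℕ, Nat.Coprime j (orderOf x) →
    IsConj x (x ^ j) ∨ IsConj (x ^ m) (x ^ j) := by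
  obtain ⟨a, b, hb, hab⟩ := Nat.exists_eq_two_pow_mul_odd (Nat.factorial_ne_zero n)
  have hcop : Nat.Coprime 4 b := by
    have h1 : Nat.Coprime 2 b := hb.coprime_two_left
    have h2 := Nat.Coprime.pow_left 2 h1
    exact h2
  obtain ⟨m, hm4, hmb⟩ := Nat.chineseRemainder hcop 3 1
  refine ⟨m, ?_⟩
  rintro ⟨⟨s, d⟩, hx⟩ j hj
  have hord : orderOf (⟨(s, d), hx⟩ : GG n) = Nat.lcm (orderOf s) (orderOf d) := by
    rw [Subgroup.orderOf_mk, Prod.orderOf_mk]
  rw [hord] at hj
  have h1 : Nat.Coprime j (orderOf s) := Nat.Coprime.coprime_dvd_right (Nat.dvd_lcm_left _ _) hj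
  have h2 : Nat.Coprime j (orderOf d) := Nat.Coprime.coprime_dvd_right (Nat.dvd_lcm_right _ _) hj
  obtain ⟨g1, hg1⟩ := sn_conj s h1
  obtain ⟨g2, hg2⟩ := d8_rat d h2
  have hg : ((g1, g2) : Equiv.Perm (Fin n) × DihedralGroup 4) * (s, d) * (g1, g2)⁻¹ = (s, d) ^ j :=
    Prod.ext hg1 hg2
  have hxj : (s, d) ^ j ∈ (eps n).ker := Subgroup.pow_mem _ hx j
  rcases Int.units_eq_one_or (eps n (g1, g2)) with he | he
  · left
    exact ker_conj (eps n) hx hxj hg he
  · by_cases hc : ∃ c : Equiv.Perm (Fin n) × DihedralGroup 4, c * (s, d) = (s, d) * c ∧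
      eps n c = -1
    · obtain ⟨c, hc1, hc2⟩ := hc
      left
      exact ker_conj_c (eps n) hx hxj hg he hc1 hc2
    · right
      push Not at hc
      have hc' : ∀ c : Equiv.Perm (Fin n) × DihedralGroup 4, c * (s, d) = (s, d) * c →
          eps n c = 1 := fun c hcx => (Int.units_eq_one_or _).resolve_right (hc c hcx)
      have hs : Subgroup.centralizer {s} ≤ alternatingGroup (Fin n) := by
        intro c hcs
        rw [Subgroup.mem_centralizer_singleton_iff] at hcs
        rw [Equiv.Perm.mem_alternatingGroup]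
        have h3 := hc' (c, 1) (Prod.ext hcs (by simp))
        rw [eps_apply] at h3
        simpa using h3
      have hd : ∀ c : DihedralGroup 4, c * d = d * c → det c = 1 := by
        intro c hcd
        have h3 := hc' (1, c) (Prod.ext (by simp) hcd)
        rw [eps_apply] at h3
        simpa using h3
      have hodd : orderOf s ∣ b := by
        have h4 : Odd (orderOf s) := odd_order hs
        have h5 : orderOf s ∣ 2 ^ a * b := by
          rw [← hab]
          have h6 := orderOf_dvd_card (x := s)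
          rwa [Fintype.card_perm, Fintype.card_fin] at h6
        exact (Nat.Coprime.pow_right a (Nat.Coprime.symm h4.coprime_two_left)).dvd_of_dvd_mul_left h5
      have hu : eps n (1, DihedralGroup.sr 0) = -1 := by
        rw [eps_apply]
        simp only [map_one, one_mul]
        rfl
      have hum : ((1, DihedralGroup.sr 0) : Equiv.Perm (Fin n) × DihedralGroup 4) * (s, d) *
          (1, DihedralGroup.sr 0)⁻¹ = (s, d) ^ m := by
        refine Prod.ext ?_ ?_
        · show 1 * s * 1⁻¹ = s ^ m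
          rw [one_mul, inv_one, mul_one]
          have h3 : m ≡ 1 [MOD orderOf s] := Nat.ModEq.of_dvd hodd hmb
          have h4 := (pow_eq_pow_iff_modEq (x := s)).mpr h3
          rw [h4, pow_one]
        · show DihedralGroup.sr 0 * d * (DihedralGroup.sr 0)⁻¹ = d ^ m
          rw [d8_cent d hd]
          have h3 : m ≡ 3 [MOD orderOf d] :=
            Nat.ModEq.of_dvd (orderOf_dvd_of_pow_eq_one (d8_pow4 d)) hm4
          exact ((pow_eq_pow_iff_modEq (x := d)).mpr h3).symm
      have hxm : (s, d) ^ m ∈ (eps n).ker := Subgroup.pow_mem _ hx m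
      exact ker_conj_u (eps n) hxm hxj hg he hum hu

end Pool.Agent.V1115.SR
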