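import Mathlib

/-!
The number of primes strictly between `2 ^ t` and `2 ^ (t + 1)` is unbounded.
-/

open scoped BigOperators Classical

namespace Pool.Agent.V1115.SR

/-- the primes strictly between `2 ^ t` and `2 ^ (t + 1)` -/
noncomputable def PP (t : ℕ) : Finset ℕ :=
  (Finset.Ioo (2 ^ t) (2 ^ (t + 1))).filter Nat.Prime

lemma mem_PP {t q : ℕ} : q ∈ PP t ↔ (2 ^ t < q ∧ q < 2 ^ (t + 1)) ∧ q.Prime := by
  simp [PP]

theorem exists_many (k : ℕ) : ∃ t : ℕ, k ≤ (PP t).card := by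
  by_contra hcon
  push Not at hcon
  let f : ℕ → ℝ := Set.indicator {p : ℕ | p.Prime} (fun n : ℕ => (1 : ℝ) / n)
  have hf0 : ∀ n, 0 ≤ f n := by
    intro n
    simp only [f, Set.indicator]
    split_ifs
    · positivity
    · exact le_rfl
  have hstep : ∀ t, ∑ i ∈ Finset.Ico (2 ^ t) (2 ^ (t + 1)), f i ≤ (k + 1) / 2 ^ t := by
    intro t
    have h1 : ∑ i ∈ Finset.Ico (2 ^ t) (2 ^ (t + 1)), f i =
        ∑ i ∈ (Finset.Ico (2 ^ t) (2 ^ (t + 1))).filter Nat.Prime, (1 : ℝ) / i := by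
      rw [Finset.sum_filter]
      refine Finset.sum_congr rfl fun i _ => ?_
      simp [f, Set.indicator]
    rw [h1]
    have h2 : ∀ i ∈ (Finset.Ico (2 ^ t) (2 ^ (t + 1))).filter Nat.Prime,
        (1 : ℝ) / i ≤ 1 / 2 ^ t := by
      intro i hi
      rw [Finset.mem_filter, Finset.mem_Ico] at hi
      have : (2 : ℝ) ^ t ≤ i := by exact_mod_cast hi.1.1
      exact one_div_le_one_div_of_le (by positivity) this
    refine le_trans (Finset.sum_le_card_nsmul _ _ _ h2) ?_
    have h3 : ((Finset.Ico (2 ^ t) (2 ^ (t + 1))).filter Nat.Prime).card ≤ k + 1 := by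
      have h4 : (Finset.Ico (2 ^ t) (2 ^ (t + 1))).filter Nat.Prime ⊆ insert (2 ^ t) (PP t) := by
        intro i hi
        rw [Finset.mem_filter, Finset.mem_Ico] at hi
        rw [Finset.mem_insert, mem_PP]
        rcases eq_or_lt_of_le hi.1.1 with h | h
        · exact Or.inl h.symm
        · exact Or.inr ⟨⟨h, hi.1.2⟩, hi.2⟩
      exact le_trans (Finset.card_le_card h4) (le_trans (Finset.card_insert_le _ _)
        (Nat.succ_le_succ (hcon t).le))
    rw [nsmul_eq_mul, mul_one_div]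
    have h5 : (((Finset.Ico (2 ^ t) (2 ^ (t + 1))).filter Nat.Prime).card : ℝ) ≤ k + 1 := by
      exact_mod_cast h3
    gcongr
  have hS : ∀ t, ∑ i ∈ Finset.range (2 ^ t), f i ≤ f 0 + (k + 1) * (2 - 2 / 2 ^ t) := by
    intro t
    induction t with
    | zero => simp
    | succ t ih =>
      rw [← Finset.sum_range_add_sum_Ico f (Nat.pow_le_pow_right (by norm_num) (Nat.le_succ t))]
      have := hstep t
      have h2 : (2 : ℝ) / 2 ^ (t + 1) = 1 / 2 ^ t := by
        rw [pow_succ]; field_simp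
      have h3 : (2 : ℝ) / 2 ^ t = 2 * (1 / 2 ^ t) := by ring
      have h4 : ((k : ℝ) + 1) / 2 ^ t = (k + 1) * (1 / 2 ^ t) := by ring
      rw [h2]
      rw [h3] at ih
      rw [h4] at this
      nlinarith
  apply not_summable_one_div_on_primes
  refine summable_of_sum_range_le hf0 (c := f 0 + (k + 1) * 2) fun n => ?_
  have h1 : ∑ i ∈ Finset.range n, f i ≤ ∑ i ∈ Finset.range (2 ^ n), f i :=
    Finset.sum_le_sum_of_subset_of_nonneg
      (Finset.range_subset_range.mpr (Nat.lt_two_pow_self).le) fun i _ _ => hf0 i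
  refine le_trans h1 (le_trans (hS n) ?_)
  have h5 : (0 : ℝ) ≤ 2 / 2 ^ n := by positivity
  have h6 : (0 : ℝ) ≤ (k : ℝ) + 1 := by positivity
  nlinarith

end Pool.Agent.V1115.SR
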