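import Mathlib

/-!
Permutations with two cycles of distinct odd lengths, one of them a prime.
-/

set_option linter.unusedSectionVars false

open scoped BigOperators
open Equiv.Perm

namespace Pool.Agent.V1115.SR

section mult

variable {q : ℕ} [Fact q.Prime]

/-- multiplication by a unit -/
def mu (u : (ZMod q)ˣ) : Equiv.Perm (ZMod q) := MulAction.toPermHom (ZMod q)ˣ (ZMod q) u

lemma mu_zpow (u : (ZMod q)ˣ) (i : ℤ) (x : ZMod q) : (mu u ^ i) x = ((u ^ i : (ZMod q)ˣ) : ZMod q) * x := by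
  unfold mu
  rw [← map_zpow]
  rfl

lemma mu_apply (u : (ZMod q)ˣ) (x : ZMod q) : mu u x = (u : ZMod q) * x := rfl

lemma sign_mu (hq : q ≠ 2) {u : (ZMod q)ˣ} (hu : ∀ x : (ZMod q)ˣ, x ∈ Subgroup.zpowers u) :
    Equiv.Perm.sign (mu u) = -1 := by
  have hp : q.Prime := Fact.out
  have hu1 : (u : ZMod q) ≠ 1 := by
    intro h
    have h1 : u = 1 := Units.ext h
    have h2 := hu (-1)
    rw [h1, Subgroup.zpowers_one_eq_bot, Subgroup.mem_bot] at h2
    have h3 : (-1 : ZMod q) = 1 := congrArg Units.val h2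
    have : Fact (2 < q) := ⟨lt_of_le_of_ne hp.two_le (Ne.symm hq)⟩
    exact ZMod.neg_one_ne_one h3
  have hcyc : (mu u).IsCycle := by
    refine ⟨1, ?_, ?_⟩
    · rw [mu_apply, mul_one]
      exact hu1
    · intro y hy
      have hy0 : y ≠ 0 := by
        rintro rfl
        exact hy (by rw [mu_apply, mul_zero])
      obtain ⟨i, hi⟩ := Subgroup.mem_zpowers_iff.mp (hu (Units.mk0 y hy0))
      refine ⟨i, ?_⟩
      rw [mu_zpow, hi, Units.val_mk0, mul_one]
  have hsupp : (mu u).support = Finset.univ.erase 0 := by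
    ext y
    rw [Equiv.Perm.mem_support, Finset.mem_erase, mu_apply]
    constructor
    · intro h
      exact ⟨fun h0 => h (by rw [h0, mul_zero]), Finset.mem_univ _⟩
    · rintro ⟨h, -⟩ h1
      apply hu1
      have h2 : ((u : ZMod q) - 1) * y = 0 := by rw [sub_mul, h1, one_mul, sub_self]
      rcases mul_eq_zero.mp h2 with h3 | h3
      · exact sub_eq_zero.mp h3
      · exact absurd h3 h
  rw [hcyc.sign, hsupp, Finset.card_erase_of_mem (Finset.mem_univ _), Finset.card_univ, ZMod.card]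
  have : Even (q - 1) := by
    obtain ⟨k, hk⟩ := hp.odd_of_ne_two hq
    exact ⟨k, by omega⟩
  rw [this.neg_one_pow]

end mult

section two

variable (q b : ℕ) [Fact q.Prime] [NeZero b]

/-- two cycles of lengths `q` and `b` -/
def ss : Equiv.Perm (ZMod q ⊕ ZMod b) := Equiv.sumCongr (Equiv.addRight 1) (Equiv.addRight 1)

lemma ss_pow_inl (k : ℕ) (x : ZMod q) : (ss q b ^ k) (Sum.inl x) = Sum.inl (x + k) := by
  induction k generalizing x with
  | zero => simp
  | succ k ih =>
    rw [pow_succ', Equiv.Perm.mul_apply, ih]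
    simp [ss, add_assoc]

lemma ss_pow_inr (k : ℕ) (x : ZMod b) : (ss q b ^ k) (Sum.inr x) = Sum.inr (x + k) := by
  induction k generalizing x with
  | zero => simp
  | succ k ih =>
    rw [pow_succ', Equiv.Perm.mul_apply, ih]
    simp [ss, add_assoc]

variable {q b}

lemma ss_pow : ss q b ^ (q * b) = 1 := by
  ext x
  rcases x with x | x
  · rw [ss_pow_inl]
    simp
  · rw [ss_pow_inr]
    simp

lemma unit_pow_odd {u : ℤˣ} {k : ℕ} (hk : Odd k) (h : u ^ k = 1) : u = 1 := by
  rcases Int.units_eq_one_or u with h1 | h1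
  · exact h1
  · rw [h1, hk.neg_one_pow] at h
    exact absurd h (by decide)

lemma cent_sign (hq : Odd q) (hb : Odd b) (hbq : b < q) {c : Equiv.Perm (ZMod q ⊕ ZMod b)}
    (hc : c * ss q b = ss q b * c) : Equiv.Perm.sign c = 1 := by
  have hck : ∀ k : ℕ, c * ss q b ^ k = ss q b ^ k * c := by
    intro k
    exact ((show Commute c (ss q b) from hc).pow_right k).eq
  have hck' : ∀ (k : ℕ) (z : ZMod q ⊕ ZMod b), c ((ss q b ^ k) z) = (ss q b ^ k) (c z) := by
    intro k z
    have := congrArg (fun f : Equiv.Perm (ZMod q ⊕ ZMod b) => f z) (hck k)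
    exact this
  have hb0 : 0 < b := Nat.pos_of_ne_zero (NeZero.ne b)
  have hbz : (b : ZMod q) ≠ 0 := by
    intro h
    rw [ZMod.natCast_eq_zero_iff] at h
    exact absurd (Nat.le_of_dvd hb0 h) (by omega)
  obtain ⟨a, ha⟩ : ∃ a : ZMod q, c (Sum.inl 0) = Sum.inl a := by
    rcases h : c (Sum.inl 0) with a | a
    · exact ⟨a, rfl⟩
    · exfalso
      have h1 := hck' b (Sum.inl 0)
      rw [h, ss_pow_inr, ss_pow_inl, ZMod.natCast_self, add_zero, ← h] at h1
      have h2 := Sum.inl_injective (c.injective h1)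
      rw [zero_add] at h2
      exact hbz h2
  obtain ⟨a', ha'⟩ : ∃ a : ZMod b, c (Sum.inr 0) = Sum.inr a := by
    rcases h : c (Sum.inr 0) with a | a
    · exfalso
      have h1 := hck' b (Sum.inr 0)
      rw [h, ss_pow_inr, ss_pow_inl, ZMod.natCast_self, add_zero, h] at h1
      have h2 := Sum.inl_injective h1
      exact hbz (by simpa using h2)
    · exact ⟨a, rfl⟩
  have hl : ∀ x : ZMod q, c (Sum.inl x) = Sum.inl (a + x) := by
    intro x
    have h1 := hck' x.val (Sum.inl 0)
    rw [ss_pow_inl, ha, ss_pow_inl, ZMod.natCast_zmod_val, zero_add] at h1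
    exact h1
  have hr : ∀ x : ZMod b, c (Sum.inr x) = Sum.inr (a' + x) := by
    intro x
    have h1 := hck' x.val (Sum.inr 0)
    rw [ss_pow_inr, ha', ss_pow_inr, ZMod.natCast_zmod_val, zero_add] at h1
    exact h1
  have hlk : ∀ (k : ℕ) (x : ZMod q), (c ^ k) (Sum.inl x) = Sum.inl (k * a + x) := by
    intro k
    induction k with
    | zero => intro x; simp
    | succ k ih =>
      intro x
      rw [pow_succ', Equiv.Perm.mul_apply, ih, hl]
      push_cast
      ring_nf
  have hrk : ∀ (k : ℕ) (x : ZMod b), (c ^ k) (Sum.inr x) = Sum.inr (k * a' + x) := by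
    intro k
    induction k with
    | zero => intro x; simp
    | succ k ih =>
      intro x
      rw [pow_succ', Equiv.Perm.mul_apply, ih, hr]
      push_cast
      ring_nf
  have hc1 : c ^ (q * b) = 1 := by
    ext x
    rcases x with x | x
    · rw [hlk]; simp
    · rw [hrk]; simp
  apply unit_pow_odd (hq.mul hb)
  rw [← map_pow, hc1, map_one]

lemma conj_sign (hq : Odd q) (hb : Odd b) (hbq : b < q) {u : (ZMod q)ˣ}
    (hu : ∀ x : (ZMod q)ˣ, x ∈ Subgroup.zpowers u) {j : ℕ} (hj : (j : ZMod q) = u)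
    (hj' : (j : ZMod b) = 1) {g : Equiv.Perm (ZMod q ⊕ ZMod b)}
    (hg : g * ss q b = ss q b ^ j * g) : Equiv.Perm.sign g = -1 := by
  let g0 : Equiv.Perm (ZMod q ⊕ ZMod b) := Equiv.sumCongr (mu u) (Equiv.refl _)
  have h0 : g0 * ss q b = ss q b ^ j * g0 := by
    ext x
    rcases x with x | x
    · rw [Equiv.Perm.mul_apply, Equiv.Perm.mul_apply]
      show g0 (Sum.inl (x + 1)) = (ss q b ^ j) (Sum.inl (mu u x))
      rw [ss_pow_inl]
      show Sum.inl (mu u (x + 1)) = _
      rw [mu_apply, mu_apply, hj, mul_add, mul_one]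
    · rw [Equiv.Perm.mul_apply, Equiv.Perm.mul_apply]
      show g0 (Sum.inr (x + 1)) = (ss q b ^ j) (Sum.inr x)
      rw [ss_pow_inr, hj']
      rfl
  have h1 : Equiv.Perm.sign g0 = -1 := by
    show Equiv.Perm.sign (Equiv.sumCongr (mu u) (Equiv.refl (ZMod b))) = -1
    rw [Equiv.Perm.sign_sumCongr, sign_mu (by rintro rfl; exact absurd hq (by decide)) hu]
    simp
  have h2 : (g0⁻¹ * g) * ss q b = ss q b * (g0⁻¹ * g) := by
    rw [mul_assoc, hg, ← mul_assoc, ← mul_assoc]
    congr 1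
    rw [inv_mul_eq_iff_eq_mul, ← mul_assoc, h0, mul_assoc, mul_inv_cancel, mul_one]
  have h3 := cent_sign hq hb hbq h2
  rw [map_mul, map_inv, h1] at h3
  rcases Int.units_eq_one_or (Equiv.Perm.sign g) with h | h
  · rw [h] at h3
    exact absurd h3 (by decide)
  · exact h

/-- the element used for the prime `q` -/
theorem exists_s {n : ℕ} (hn : n = q + b) (hq : Odd q) (hb : Odd b) (hbq : b < q) :
    ∃ s : Equiv.Perm (Fin n), s ^ (q * b) = 1 ∧ Equiv.Perm.sign s = 1 ∧
      ∀ (u : (ZMod q)ˣ), (∀ x : (ZMod q)ˣ, x ∈ Subgroup.zpowers u) → ∀ j : ℕ, (j : ZMod q) = u →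
        (j : ZMod b) = 1 → ∀ g : Equiv.Perm (Fin n), g * s = s ^ j * g →
          Equiv.Perm.sign g = -1 := by
  have hcard : Fintype.card (ZMod q ⊕ ZMod b) = Fintype.card (Fin n) := by
    rw [Fintype.card_sum, ZMod.card, ZMod.card, Fintype.card_fin, hn]
  let e : (ZMod q ⊕ ZMod b) ≃ Fin n := Fintype.equivOfCardEq hcard
  let E : Equiv.Perm (ZMod q ⊕ ZMod b) ≃* Equiv.Perm (Fin n) := e.permCongrHom
  have hE : ∀ g, Equiv.Perm.sign (E g) = Equiv.Perm.sign g := fun g =>
    Equiv.Perm.sign_permCongr e g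
  have h1 : E (ss q b) ^ (q * b) = 1 := by rw [← map_pow, ss_pow, map_one]
  refine ⟨E (ss q b), h1, ?_, ?_⟩
  · apply unit_pow_odd (hq.mul hb)
    rw [← map_pow, h1, map_one]
  · intro u hu j hj hj' g hg
    have h2 : E.symm g * ss q b = ss q b ^ j * E.symm g := by
      apply E.injective
      rw [map_mul, map_mul, map_pow, MulEquiv.apply_symm_apply]
      exact hg
    have h3 := conj_sign hq hb hbq hu hj hj' h2
    rw [← hE, MulEquiv.apply_symm_apply] at h3
    exact h3

end two

end Pool.Agent.V1115.SR
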